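import Pool.Agent.Zk82.KEq.Two

set_option autoImplicit false
set_option linter.unusedSectionVars false

/-!
# `k`-equilateral polygons spanning odd-dimensional spaces

For every `k ≥ 2` and every `n > 2 * k + 1` there is a `k`-equilateral `n`-gon, with pairwise
distinct vertices, which spans `E ^ (2 * k - 1)`.  This is the first part (Q1) of the conjecture.

* `n` even: frequencies `1, …, k - 1` and the alternating coordinate `(-1) ^ i`.
* `k ≥ 3`, `n` odd: the `n`-gon on the trigonometric curve with the frequencies `2, …, k` spans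
  `E ^ (2 * k - 2)` and carries no equilibrium stress with vanishing sums on the pairs at cyclic
  distance at most `k`.  So it can be deformed with arbitrary small heights in one more dimension.
* `k = 2`, `n ≥ 7` odd: the regular `n`-gon has such stresses, but only with the frequencies
  `± 1`, and they are not stresses of the heights `cos (4 π i / n)`.
-/

namespace Pool.Agent.Results.MP_fb0157_co.OddDimensionalPolygons

open Pool.Agent.Zk82.KEq Finset

/-- An `n`-gon in `E ^ d` is a cyclically ordered tuple `x : ZMod n → E ^ d`.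
It is `k`-equilateral if for each `j = 1, …, k` the distance between `x i` and `x (i + j)`
is the same number `c j` for every `i`. -/
def IsKEquilateral (k : ℕ) {n d : ℕ} (x : ZMod n → EuclideanSpace ℝ (Fin d)) : Prop :=
  ∃ c : ℕ → ℝ, ∀ j : ℕ, 1 ≤ j → j ≤ k → ∀ i : ZMod n, dist (x i) (x (i + (j : ZMod n))) = c j

/-- The `n`-gon `x` in `E ^ d` spans `E ^ d`: the affine hull of its vertices is the whole
space (has dimension exactly `d`). -/
def Spans {n d : ℕ} (x : ZMod n → EuclideanSpace ℝ (Fin d)) : Prop :=
  affineSpan ℝ (Set.range x) = ⊤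

variable {n k : ℕ} [NeZero n]

/-- The frequencies `1, …, k - 1`. -/
def F1 (n k : ℕ) : Fin (k - 1) → ZMod n := fun f => ((f.val + 1 : ℕ) : ZMod n)

lemma nat_cast_inj {a b : ℕ} (ha : a < n) (hb : b < n) (h : (a : ZMod n) = (b : ZMod n)) :
    a = b := by
  have := (ZMod.natCast_eq_natCast_iff' a b n).1 h
  rwa [Nat.mod_eq_of_lt ha, Nat.mod_eq_of_lt hb] at this

lemma nat_cast_add {a b : ℕ} (ha : 0 < a + b) (hb : a + b < n) :
    (a : ZMod n) ≠ -(b : ZMod n) := by
  intro h
  have h1 : ((a + b : ℕ) : ZMod n) = ((0 : ℕ) : ZMod n) := by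
    push_cast; rw [h]; ring
  have := nat_cast_inj (n := n) hb (by omega) h1
  omega

theorem even_case (hk : 2 ≤ k) (hn : 2 * k + 1 < n) (hev : n % 2 = 0) :
    ∃ x : ZMod n → EuclideanSpace ℝ (Fin (2 * k - 1)), Function.Injective x ∧
      (∃ c : ℕ → ℝ, ∀ j : ℕ, 1 ≤ j → j ≤ k → ∀ i : ZMod n,
        dist (x i) (x (i + (j : ZMod n))) = c j) ∧
      affineSpan ℝ (Set.range x) = ⊤ := by
  have hm2 : ((n / 2 : ℕ) : ZMod n) + ((n / 2 : ℕ) : ZMod n) = 0 := by
    rw [← Nat.cast_add, show n / 2 + n / 2 = n by omega]
    exact ZMod.natCast_self n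
  refine toPolygon (k := k) (2 * k - 1) ?_ (base (F1 n k)) (hgt ((n / 2 : ℕ) : ZMod n)) ?_ ?_ ?_
  · simp only [Fintype.card_prod, Fintype.card_fin]; omega
  · refine base_injective _ fun x hx => ?_
    have := hx ⟨0, by omega⟩
    simpa [F1] using this
  · refine li_base (F1 n k) ?_ ?_ ?_ _ ?_ ?_ ?_
    · intro f g h
      have := nat_cast_inj (n := n) (by have := f.2; omega) (by have := g.2; omega) h
      exact Fin.ext (by omega)
    · intro f h
      have : ((f.val + 1 : ℕ) : ZMod n) = ((0 : ℕ) : ZMod n) := by rw [Nat.cast_zero]; exact h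
      have := nat_cast_inj (n := n) (by have := f.2; omega) (by omega) this
      omega
    · intro f g
      exact nat_cast_add (by omega) (by have := f.2; have := g.2; omega)
    · intro h
      have : ((n / 2 : ℕ) : ZMod n) = ((0 : ℕ) : ZMod n) := by rw [Nat.cast_zero]; exact h
      have := nat_cast_inj (n := n) (by omega) (by omega) this
      omega
    · intro f h
      have := nat_cast_inj (n := n) (by omega) (by have := f.2; omega) h
      have := f.2
      omega
    · intro f
      exact nat_cast_add (by omega) (by have := f.2; omega)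
  · intro j
    set m₀ : ZMod n := ((n / 2 : ℕ) : ZMod n) with hm₀
    have hreal : ∀ i : ZMod n, ((hgt m₀ i : ℝ) : ℂ) = e (m₀ * i) := by
      intro i
      rw [hgt_complex]
      have : e (-(m₀ * i)) = e (m₀ * i) := by
        congr 1
        linear_combination (-i) * hm2
      rw [this]; ring
    have hsq : ∀ i : ZMod n, hgt m₀ i ^ 2 = 1 := by
      intro i
      have : ((hgt m₀ i ^ 2 : ℝ) : ℂ) = 1 := by
        push_cast
        rw [hreal, sq, ← e_add, ← e_zero (n := n)]
        congr 1
        linear_combination i * hm2
      exact_mod_cast this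
    have hmul : ∀ i s : ZMod n, hgt m₀ (i + s) = hgt m₀ i * hgt m₀ s := by
      intro i s
      have : ((hgt m₀ (i + s) : ℝ) : ℂ) = ((hgt m₀ i * hgt m₀ s : ℝ) : ℂ) := by
        push_cast
        rw [hreal, hreal, hreal, ← e_add]
        congr 1; ring
      exact_mod_cast this
    obtain ⟨c, hc⟩ := base_dist (F1 n k) (st n j)
    refine ⟨c + (1 - hgt m₀ (st n j)) ^ 2, fun i => ?_⟩
    rw [hc, hmul]
    linear_combination (1 - hgt m₀ (st n j)) ^ 2 * hsq i

theorem odd_case (hk : 3 ≤ k) (hn : 2 * k + 1 < n) (hodd : n % 2 = 1) :
    ∃ x : ZMod n → EuclideanSpace ℝ (Fin (2 * k - 1)), Function.Injective x ∧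
      (∃ c : ℕ → ℝ, ∀ j : ℕ, 1 ≤ j → j ≤ k → ∀ i : ZMod n,
        dist (x i) (x (i + (j : ZMod n))) = c j) ∧
      affineSpan ℝ (Set.range x) = ⊤ := by
  obtain ⟨Y, H, h1, h2, h3⟩ := deform (k := k) (base (F3 n k)) (hgt 1)
    (fun j => base_dist _ _) (base_injective _ (by
      intro x hx
      have a := hx ⟨0, by omega⟩
      have b := hx ⟨1, by omega⟩
      simp only [F3] at a b
      push_cast at a b
      linear_combination b - a))
    (by
      refine li_base (F3 n k) ?_ ?_ ?_ _ ?_ ?_ ?_
      · intro f g h
        have := nat_cast_inj (n := n) (by have := f.2; omega) (by have := g.2; omega) h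
        exact Fin.ext (by omega)
      · intro f h
        have : ((f.val + 2 : ℕ) : ZMod n) = ((0 : ℕ) : ZMod n) := by rw [Nat.cast_zero]; exact h
        have := nat_cast_inj (n := n) (by have := f.2; omega) (by omega) this
        omega
      · intro f g
        exact nat_cast_add (by omega) (by have := f.2; have := g.2; omega)
      · intro h
        have : ((1 : ℕ) : ZMod n) = ((0 : ℕ) : ZMod n) := by
          rw [Nat.cast_zero, Nat.cast_one]; exact h
        have := nat_cast_inj (n := n) (by omega) (by omega) this
        omega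
      · intro f h
        have : ((1 : ℕ) : ZMod n) = ((f.val + 2 : ℕ) : ZMod n) := by
          rw [Nat.cast_one]; exact h
        have := nat_cast_inj (n := n) (by omega) (by have := f.2; omega) this
        omega
      · intro f
        have := nat_cast_add (n := n) (a := 1) (b := f.val + 2) (by omega)
          (by have := f.2; omega)
        rw [Nat.cast_one] at this
        exact this)
    (fun l hl => by
      rw [stress_zero3 hk hn hodd l hl]
      simp)
    (fun l hl _ => stress_zero3 hk hn hodd l hl)
  exact toPolygon (k := k) (2 * k - 1)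
    (by simp only [Fintype.card_prod, Fintype.card_fin]; omega) Y H h1 h2 h3

theorem two_case (hn : 7 ≤ n) :
    ∃ x : ZMod n → EuclideanSpace ℝ (Fin (2 * 2 - 1)), Function.Injective x ∧
      (∃ c : ℕ → ℝ, ∀ j : ℕ, 1 ≤ j → j ≤ 2 → ∀ i : ZMod n,
        dist (x i) (x (i + (j : ZMod n))) = c j) ∧
      affineSpan ℝ (Set.range x) = ⊤ := by
  have c1 : ∀ {a b : ℕ}, a < 7 → b < 7 → (a : ZMod n) = (b : ZMod n) → a = b :=
    fun h1 h2 h3 => nat_cast_inj (by omega) (by omega) h3
  obtain ⟨Y, H, h1, h2, h3⟩ := deform (k := 2) (base (F2 n)) (hgt 2)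
    (fun j => base_dist _ _) (base_injective _ (by
      intro x hx
      have a := hx 0
      simpa [F2] using a))
    (by
      refine li_base (F2 n) ?_ ?_ ?_ _ ?_ ?_ ?_
      · intro f g _
        exact Fin.ext (by have := f.2; have := g.2; omega)
      · intro f h
        have : ((1 : ℕ) : ZMod n) = ((0 : ℕ) : ZMod n) := by
          rw [Nat.cast_zero, Nat.cast_one]; exact h
        have := c1 (by norm_num) (by norm_num) this
        omega
      · intro f g h
        have : ((2 : ℕ) : ZMod n) = ((0 : ℕ) : ZMod n) := by
          simp only [F2] at h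
          push_cast
          linear_combination h
        have := c1 (by norm_num) (by norm_num) this
        omega
      · intro h
        have : ((2 : ℕ) : ZMod n) = ((0 : ℕ) : ZMod n) := by
          push_cast; exact h
        have := c1 (by norm_num) (by norm_num) this
        omega
      · intro f h
        have : ((2 : ℕ) : ZMod n) = ((1 : ℕ) : ZMod n) := by
          push_cast; exact h
        have := c1 (by norm_num) (by norm_num) this
        omega
      · intro f h
        have : ((3 : ℕ) : ZMod n) = ((0 : ℕ) : ZMod n) := by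
          simp only [F2] at h
          push_cast
          linear_combination h
        have := c1 (by norm_num) (by norm_num) this
        omega)
    (hb_two hn) (fun l hl h => hc_two hn l hl h)
  exact toPolygon (k := 2) (2 * 2 - 1)
    (by simp only [Fintype.card_prod, Fintype.card_fin]) Y H h1 h2 h3

/-- **Q1.** For every `k ≥ 2` and every `n > 2 * k + 1` there is a `k`-equilateral `n`-gon (with
pairwise distinct vertices) which spans `E ^ (2 * k - 1)`. -/
theorem result (k n : ℕ) (hk : 2 ≤ k) (hn : 2 * k + 1 < n) :
    ∃ x : ZMod n → EuclideanSpace ℝ (Fin (2 * k - 1)),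
      Function.Injective x ∧ IsKEquilateral k x ∧ Spans x := by
  have : NeZero n := ⟨by omega⟩
  rcases Nat.mod_two_eq_zero_or_one n with h | h
  · exact even_case hk hn h
  · rcases Nat.lt_or_ge k 3 with h3 | h3
    · obtain rfl : k = 2 := by omega
      exact two_case (by omega)
    · exact odd_case h3 hn h

end Pool.Agent.Results.MP_fb0157_co.OddDimensionalPolygons
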